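import Pool.Agent.Helper29.E3.St3

/-!
# Project E3, module PMIX: total of the minor arcs
-/

set_option autoImplicit false

namespace Pool.Agent.Helper80.E3

open Finset ArithmeticFunction Classical Filter
open Pool.Agent.Helper29.E3 Pool.Agent.Helper49.PC
open Pool.Agent.Helper48.BK (ex th lz Vz Pz gs nd Apx AdN Sol thd)
open scoped ComplexConjugate

private lemma cut_sq_PMIX (f : ℕ → ℝ) (w₀ w₁ n : ℕ) (T : ℝ) (h0 : 0 ≤ f n) (hT : f n ≤ T) :
    (cut f w₀ w₁ n) ^ 2 ≤ T ^ 2 := by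
  unfold cut
  split_ifs
  · exact pow_le_pow_left₀ h0 hT 2
  · simpa using sq_nonneg T

private lemma sum_sq_PMIX (f : ℕ → ℝ) (w₀ w₁ Y : ℕ) (T : ℝ)
    (hf : ∀ n, 1 ≤ n → n ≤ Y → 0 ≤ f n ∧ f n ≤ T) :
    ∑ n ∈ Ioc 0 Y, (cut f w₀ w₁ n) ^ 2 ≤ Y * T ^ 2 := by
  have h : ∑ n ∈ Ioc 0 Y, (cut f w₀ w₁ n) ^ 2 ≤ ∑ n ∈ Ioc 0 Y, T ^ 2 :=
    Finset.sum_le_sum fun n hn => by
      have hn' := Finset.mem_Ioc.1 hn
      obtain ⟨h1, h2⟩ := hf n hn'.1 hn'.2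
      exact cut_sq_PMIX f w₀ w₁ n T h1 h2
  simpa using h

private lemma sqrt_PMIX (D M S T : ℝ) (hD : 0 ≤ D) (hM : 0 ≤ M) (hT : 0 ≤ T)
    (hS : S ≤ D * M * T ^ 2) : √(M ^ 2 * D * S) ≤ D * M * T * √M := by
  rw [Real.sqrt_le_left (by positivity)]
  have h : (D * M * T * √M) ^ 2 = M ^ 2 * D * (D * M * T ^ 2) := by
    have := Real.sq_sqrt hM
    calc (D * M * T * √M) ^ 2 = D ^ 2 * M ^ 2 * T ^ 2 * (√M ^ 2) := by ring
      _ = _ := by rw [this]; ring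
  rw [h]
  exact mul_le_mul_of_nonneg_left hS (by positivity)

private lemma fin_PMIX (K : ℕ) (a b c M L e s₂ s₃ : ℝ) (ha : 0 < a) (hb : 0 < b) (hc : 0 < c)
    (hM : 0 < M) (hL : 9 ≤ L) (he : e ≤ L ^ K)
    (hs2 : s₂ ≤ a * c * M * (3 * L) * √M) (hs3 : s₃ ≤ a * b * M * (3 * L) * √M)
    (hs20 : 0 ≤ s₂) (hs30 : 0 ≤ s₃) :
    1 / (M ^ 2 * (a * b * c)) * (e * (b * c * M / L ^ (K + 4) * s₂ * s₃)) ≤
      a * b * c * M ^ 2 / L := by
  have hL0 : 0 < L := by linarith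
  have hsq := Real.sq_sqrt hM.le
  have h1 : b * c * M / L ^ (K + 4) * s₂ * s₃ ≤
      b * c * M / L ^ (K + 4) * (a * c * M * (3 * L) * √M) * (a * b * M * (3 * L) * √M) := by
    have : 0 ≤ b * c * M / L ^ (K + 4) := by positivity
    exact mul_le_mul (mul_le_mul_of_nonneg_left hs2 this) hs3 hs30 (by positivity)
  have h2 : b * c * M / L ^ (K + 4) * (a * c * M * (3 * L) * √M) * (a * b * M * (3 * L) * √M) =
      9 * (a * b * c) ^ 2 * M ^ 4 / L ^ (K + 2) := by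
    calc _ = b * c * M / L ^ (K + 4) * (a * c * M * (3 * L)) * (a * b * M * (3 * L)) * (√M ^ 2) := by
          ring
      _ = _ := by
        rw [hsq]
        field_simp
        ring
  rw [h2] at h1
  have h3 : e * (b * c * M / L ^ (K + 4) * s₂ * s₃) ≤
      L ^ K * (9 * (a * b * c) ^ 2 * M ^ 4 / L ^ (K + 2)) :=
    mul_le_mul he h1 (by positivity) (by positivity)
  have h4 : L ^ K * (9 * (a * b * c) ^ 2 * M ^ 4 / L ^ (K + 2)) =
      9 * (a * b * c) ^ 2 * M ^ 4 / L ^ 2 := by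
    rw [pow_add]
    field_simp
  rw [h4] at h3
  have h5 : 1 / (M ^ 2 * (a * b * c)) * (e * (b * c * M / L ^ (K + 4) * s₂ * s₃)) ≤
      1 / (M ^ 2 * (a * b * c)) * (9 * (a * b * c) ^ 2 * M ^ 4 / L ^ 2) :=
    mul_le_mul_of_nonneg_left h3 (by positivity)
  refine h5.trans ?_
  have h6 : 1 / (M ^ 2 * (a * b * c)) * (9 * (a * b * c) ^ 2 * M ^ 4 / L ^ 2) =
      a * b * c * M ^ 2 / L * (9 / L) := by
    field_simp
  rw [h6]
  have h7 : 9 / L ≤ 1 := by rw [div_le_one hL0]; exact hL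
  have h8 : 0 ≤ a * b * c * M ^ 2 / L := by positivity
  nlinarith

/-- approximation of a minor point -/
private lemma apx_PMIX (h4 : StMEA) (p Z k : ℕ) (hZ : 1 ≤ Z) (hk : k ∈ range ((16 * Z) ^ 2))
    (hL : 1 ≤ Real.log (16 * Z)) (hkM : k ∉ Maj p Z)
    (hQ : Real.log (16 * Z) ^ p ≤ 16 * Z) :
    ∃ (v : ℕ) (h : ℤ), Apx ((k : ℝ) / ((16 * Z) ^ 2 : ℕ)) h v ∧
      Real.log (16 * Z) ^ p ≤ v ∧ v * Real.log (16 * Z) ^ p ≤ 16 * Z := by
  obtain ⟨Q, hQd⟩ : ∃ Q : ℕ, Q = ⌊(16 * Z : ℝ) / Real.log (16 * Z) ^ p⌋₊ := ⟨_, rfl⟩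
  have hLp : 0 < Real.log (16 * Z) ^ p := by positivity
  have hQ1 : 1 ≤ Q := by
    rw [hQd]
    refine Nat.le_floor ?_
    rw [Nat.cast_one, le_div_iff₀ hLp, one_mul]
    exact hQ
  have hQle : (Q : ℝ) * Real.log (16 * Z) ^ p ≤ 16 * Z := by
    rw [← le_div_iff₀ hLp, hQd]
    exact Nat.floor_le (by positivity)
  obtain ⟨v, h, hv1, hvQ, hcop, hap⟩ := h4.1 Q ((k : ℝ) / ((16 * Z) ^ 2 : ℕ)) hQ1
  have hv0 : (0 : ℝ) < v := by exact_mod_cast hv1
  have hQ0 : (0 : ℝ) < Q := by exact_mod_cast hQ1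
  have hvQ' : (v : ℝ) ≤ Q := by exact_mod_cast hvQ
  refine ⟨v, h, ⟨hv1, hcop, hap.trans ?_⟩, ?_, ?_⟩
  · rw [sq]
    exact one_div_le_one_div_of_le (by positivity) (mul_le_mul_of_nonneg_left hvQ' hv0.le)
  · by_contra hlt
    push Not at hlt
    apply hkM
    unfold Maj
    rw [Finset.mem_filter]
    refine ⟨hk, v, h, hv1, hlt.le, ?_⟩
    rw [← hQd]
    exact hap
  · exact (mul_le_mul_of_nonneg_right hvQ' hLp.le).trans hQle

private lemma log_PMIX : Tendsto (fun Z : ℕ => Real.log (16 * (Z : ℝ))) atTop atTop :=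
  Real.tendsto_log_atTop.comp (Tendsto.const_mul_atTop (by norm_num) tendsto_natCast_atTop_atTop)

theorem hPMIX (h1 : StMNRE) (h2 : StMITX) (h3 : StMIZX) (h4 : StMEA) (h5 : StLZB)
    (h6 : StMRX) : StPMIX := by
  intro K
  obtain ⟨p₁, hT0⟩ := h2 (2 * K + 8)
  obtain ⟨p₂, hMZ⟩ := h3 (2 * K + 8)
  obtain ⟨Cz, hCz, hlz⟩ := h5
  refine ⟨p₁ + p₂ + 1, fun N B => ?_⟩
  obtain ⟨x₁, hT⟩ := hT0 N
  obtain ⟨x₂, hMZB⟩ := hMZ B
  have hE : ∀ᶠ Z : ℕ in atTop, x₁ ≤ 16 * Z ∧ x₂ ≤ 16 * Z ∧ 9 ≤ Real.log (16 * (Z : ℝ)) ∧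
      Cz * B * Real.log (Real.log (16 * (Z : ℝ))) ≤ Real.log (16 * (Z : ℝ)) ∧
      Real.log (16 * (Z : ℝ)) ^ (p₁ + p₂ + 1) ≤ 16 * (Z : ℝ) := by
    have e1 : ∀ᶠ Z : ℕ in atTop, x₁ ≤ 16 * Z := by
      filter_upwards [eventually_ge_atTop x₁] with Z hZ
      omega
    have e2 : ∀ᶠ Z : ℕ in atTop, x₂ ≤ 16 * Z := by
      filter_upwards [eventually_ge_atTop x₂] with Z hZ
      omega
    have e3 := log_PMIX.eventually (eventually_ge_atTop (9 : ℝ))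
    have e4 : ∀ᶠ y : ℝ in atTop, Cz * B * Real.log y ≤ y := by
      have h0 : (0 : ℝ) < 1 / (Cz * B + 1) := by positivity
      have h6 := Real.isLittleO_log_id_atTop.bound h0
      filter_upwards [h6, eventually_ge_atTop (1 : ℝ)] with y hy hy1
      have hl : 0 ≤ Real.log y := Real.log_nonneg hy1
      rw [Real.norm_of_nonneg hl, id, Real.norm_of_nonneg (by linarith)] at hy
      have h7 : (Cz * B + 1) * Real.log y ≤ y := by
        have h8 := mul_le_mul_of_nonneg_left hy (by positivity : (0 : ℝ) ≤ Cz * B + 1)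
        rwa [← mul_assoc, mul_one_div_cancel (by positivity), one_mul] at h8
      nlinarith
    have e5 : ∀ᶠ y : ℝ in atTop, Real.log y ^ (p₁ + p₂ + 1) ≤ y := by
      have h8 := (Real.isLittleO_pow_log_id_atTop (n := p₁ + p₂ + 1)).bound one_pos
      filter_upwards [h8, eventually_ge_atTop (1 : ℝ)] with y hy hy1
      rw [one_mul, Real.norm_of_nonneg (pow_nonneg (Real.log_nonneg hy1) _), id,
        Real.norm_of_nonneg (by linarith)] at hy
      exact hy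
    have e6 : Tendsto (fun Z : ℕ => 16 * (Z : ℝ)) atTop atTop :=
      Tendsto.const_mul_atTop (by norm_num) tendsto_natCast_atTop_atTop
    filter_upwards [e1, e2, e3, log_PMIX.eventually e4, e6.eventually e5] with Z a1 a2 a3 a4 a5
    exact ⟨a1, a2, a3, a4, a5⟩
  obtain ⟨x₀, hx₀⟩ := eventually_atTop.1 hE
  refine ⟨x₀, fun a b c Z z d hZ0 ha hb hc hEE hbc hac hab hz1 hz2 f hf => ?_⟩
  obtain ⟨hX1, hX2, hL4, hLL, hLp⟩ := hx₀ Z hZ0
  obtain ⟨L, hLd⟩ : ∃ L : ℝ, L = Real.log (16 * (Z : ℝ)) := ⟨_, rfl⟩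
  obtain ⟨p, hpd⟩ : ∃ p : ℕ, p = p₁ + p₂ + 1 := ⟨_, rfl⟩
  have hL1 : 1 ≤ L := by rw [hLd]; linarith
  have hZ1 : 1 ≤ Z := by
    rcases Nat.eq_zero_or_pos Z with h0 | h0
    · rw [h0] at hL4; norm_num at hL4
    · exact h0
  have hZr : (1 : ℝ) ≤ Z := by exact_mod_cast hZ1
  have hD1 : 1 ≤ b * c := Nat.mul_pos hb hc
  have hD1r : (1 : ℝ) ≤ ((b * c : ℕ) : ℝ) := by exact_mod_cast hD1
  rw [← hpd] at hz1 hLp ⊢
  rw [← hLd] at hEE hz1 hz2 hL4 hLL hLp ⊢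
  have hL0 : 0 < L := by linarith
  have hDM : b * c ≤ (16 * Z) ^ 2 := h6.2 N (16 * Z) (b * c) (by omega) hbc
  have hMcast : ((16 * Z : ℕ) : ℝ) = 16 * (Z : ℝ) := by push_cast; ring
  -- size of f
  have hz2' : 2 ≤ z := by
    have h8 : (2 : ℝ) ≤ L ^ p := by
      have : L ^ 1 ≤ L ^ p := pow_le_pow_right₀ hL1 (by omega)
      rw [pow_one] at this
      linarith
    have : (2 : ℝ) ≤ z := h8.trans hz1
    exact_mod_cast this
  have hfsize : ∀ Y : ℕ, Y ≤ (16 * Z) ^ 3 → ∀ n, 1 ≤ n → n ≤ Y → 0 ≤ f n ∧ f n ≤ 3 * L := by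
    intro Y hY n hn1 hnY
    rcases hf with rfl | rfl
    · unfold th
      split_ifs with hp
      · refine ⟨Real.log_natCast_nonneg n, ?_⟩
        have h8 : (n : ℝ) ≤ (16 * (Z : ℝ)) ^ 3 := by
          have : n ≤ (16 * Z) ^ 3 := hnY.trans hY
          exact_mod_cast this
        have h9 := Real.log_le_log (by exact_mod_cast hn1) h8
        rw [Real.log_pow, ← hLd] at h9
        exact_mod_cast h9
      · exact ⟨le_rfl, by positivity⟩
    · obtain ⟨h8, h9⟩ := hlz z n hz2'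
      refine ⟨h8, h9.trans ?_⟩
      have h10 : Real.log z ≤ B * Real.log L := by
        rw [← Real.log_pow]
        exact Real.log_le_log (by positivity) hz2
      nlinarith
  -- minor arcs bound
  have hminor : ∀ k ∈ range ((16 * Z) ^ 2) \ Maj p Z,
      NN (fun n => ((cut f (4 * (b * c) * Z) (5 * (b * c) * Z) n : ℝ) : ℂ)) (b * c * (16 * Z))
        (b * c) ((k : ℝ) / ((16 * Z) ^ 2 : ℕ)) ≤
        (((b * c : ℕ) : ℝ) * (16 * Z) / L ^ (K + 4)) ^ 2 := by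
    intro k hk
    rw [Finset.mem_sdiff] at hk
    obtain ⟨v, h, hap, hv1, hv2⟩ := apx_PMIX h4 p Z k hZ1 hk.1 (by rw [← hLd]; exact hL1) hk.2
      (by rw [← hLd]; exact hLp)
    rw [← hLd] at hv1 hv2
    have hw : 5 * (b * c) * Z ≤ b * c * (16 * Z) := by
      have : 0 ≤ b * c * Z := Nat.zero_le _
      nlinarith
    have hfin : (((b * c : ℕ) : ℝ) * (16 * Z : ℕ)) ^ 2 / L ^ (2 * K + 8) =
        (((b * c : ℕ) : ℝ) * (16 * Z) / L ^ (K + 4)) ^ 2 := by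
      rw [hMcast, div_pow, ← pow_mul]
      congr 2
      ring
    have hv0 : (0 : ℝ) ≤ v := Nat.cast_nonneg v
    rcases hf with rfl | rfl
    · have h8 := hT (16 * Z) (b * c) v (4 * (b * c) * Z) (5 * (b * c) * Z) h
        ((k : ℝ) / ((16 * Z) ^ 2 : ℕ)) hX1 hD1 hbc hap
        (by rw [hMcast, ← hLd]
            exact (pow_le_pow_right₀ hL1 (by omega)).trans hv1)
        (by rw [hMcast, ← hLd]
            exact (mul_le_mul_of_nonneg_left (pow_le_pow_right₀ hL1 (by omega)) hv0).trans hv2) hw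
      refine h8.trans (le_of_eq ?_)
      rw [← hfin, hMcast, ← hLd]
    · have h8 := hMZB (16 * Z) (b * c) v z (4 * (b * c) * Z) (5 * (b * c) * Z) h
        ((k : ℝ) / ((16 * Z) ^ 2 : ℕ)) hX2 hD1 hDM hap
        (by rw [hMcast, ← hLd]
            exact (pow_le_pow_right₀ hL1 (by omega)).trans hv1)
        (by rw [hMcast, ← hLd]
            exact (mul_le_mul_of_nonneg_left (pow_le_pow_right₀ hL1 (by omega)) hv0).trans hv2) hw
        (by rw [hMcast, ← hLd]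
            exact (pow_le_pow_right₀ hL1 (by omega)).trans hz1)
        (by rw [hMcast, ← hLd]; exact hz2)
      refine h8.trans (le_of_eq ?_)
      rw [← hfin, hMcast, ← hLd]
  have hNpos : 1 ≤ (16 * Z) ^ 2 := Nat.one_le_pow _ _ (by omega)
  have hYle : ∀ x : ℕ, x * (16 * Z) ≤ (16 * Z) ^ 2 * x := by
    intro x
    have : 16 * Z ≤ (16 * Z) ^ 2 := by nlinarith
    calc x * (16 * Z) ≤ x * (16 * Z) ^ 2 := Nat.mul_le_mul_left _ this
      _ = _ := Nat.mul_comm _ _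
  have hmain := h1 (cut f (4 * (b * c) * Z) (5 * (b * c) * Z))
    (cut f (4 * (a * c) * Z) (5 * (a * c) * Z)) (cut f (2 * (a * b) * Z) (16 * (a * b) * Z))
    (b * c * (16 * Z)) (a * c * (16 * Z)) (a * b * (16 * Z)) a b c ((16 * Z) ^ 2) d
    (range ((16 * Z) ^ 2) \ Maj p Z) (((b * c : ℕ) : ℝ) * (16 * Z) / L ^ (K + 4))
    ha hb hc hNpos (hYle _) (hYle _) (by positivity) Finset.sdiff_subset hminor
  have hS2 := sum_sq_PMIX f (4 * (a * c) * Z) (5 * (a * c) * Z) (a * c * (16 * Z)) (3 * L)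
    (hfsize _ (by rw [pow_succ]; exact Nat.mul_le_mul_right _ hac))
  have hS3 := sum_sq_PMIX f (2 * (a * b) * Z) (16 * (a * b) * Z) (a * b * (16 * Z)) (3 * L)
    (hfsize _ (by rw [pow_succ]; exact Nat.mul_le_mul_right _ hab))
  have hcast1 : (((a * c * (16 * Z) : ℕ)) : ℝ) = (a : ℝ) * c * (16 * Z) := by push_cast; ring
  have hcast2 : (((a * b * (16 * Z) : ℕ)) : ℝ) = (a : ℝ) * b * (16 * Z) := by push_cast; ring
  rw [hcast1] at hS2
  rw [hcast2] at hS3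
  have hq2 := sqrt_PMIX ((a : ℝ) * c) (16 * Z) _ (3 * L) (by positivity) (by positivity)
    (by positivity) hS2
  have hq3 := sqrt_PMIX ((a : ℝ) * b) (16 * Z) _ (3 * L) (by positivity) (by positivity)
    (by positivity) hS3
  have ha0 : (0 : ℝ) < a := by exact_mod_cast ha
  have hb0 : (0 : ℝ) < b := by exact_mod_cast hb
  have hc0 : (0 : ℝ) < c := by exact_mod_cast hc
  have hfin := fin_PMIX K (a : ℝ) b c (16 * Z) L (EE a b c : ℝ) _ _ ha0 hb0 hc0 (by positivity)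
    hL4 hEE hq2 hq3 (Real.sqrt_nonneg _) (Real.sqrt_nonneg _)
  have hnorm : ‖1 / (((16 * Z) ^ 2 : ℕ) * (a * b * c : ℕ) : ℂ)‖ =
      1 / ((16 * (Z : ℝ)) ^ 2 * (a * b * c)) := by
    rw [norm_div, norm_one, norm_mul, Complex.norm_natCast, Complex.norm_natCast]
    push_cast
    ring
  rw [norm_mul, hnorm]
  have hgoal : ((a * b * c : ℕ) : ℝ) * (16 * Z) ^ 2 / L = (a : ℝ) * b * c * (16 * Z) ^ 2 / L := by
    push_cast
    ring
  rw [hgoal]
  refine le_trans (mul_le_mul_of_nonneg_left ?_ (by positivity)) hfin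
  refine le_trans hmain (le_of_eq ?_)
  push_cast
  ring_nf

end Pool.Agent.Helper80.E3
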